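import Mathlib

namespace Pool.Agent.Results.MP_1909e4_lc.NoFMP

/-- Unimodal formulas over the variables `var 0, var 1, ...`. -/
inductive Fml : Type
  | var : ℕ → Fml
  | bot : Fml
  | imp : Fml → Fml → Fml
  | box : Fml → Fml

namespace Fml

/-- Uniform substitution. -/
def subst (s : ℕ → Fml) : Fml → Fml
  | var n => s n
  | bot => bot
  | imp φ ψ => imp (φ.subst s) (ψ.subst s)
  | box φ => box (φ.subst s)

end Fml

open Fml

/-- Truth of a formula at a point of the frame `(W,R)` under the valuation `V`. -/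
def Sat {W : Type} (R : W → W → Prop) (V : ℕ → W → Prop) : W → Fml → Prop
  | w, .var n => V n w
  | _, .bot => False
  | w, .imp φ ψ => Sat R V w φ → Sat R V w ψ
  | w, .box φ => ∀ v, R w v → Sat R V v φ

/-- The logic of the frame `(W,R)`: all formulas valid in it. -/
def Log {W : Type} (R : W → W → Prop) : Set Fml :=
  {φ | ∀ (V : ℕ → W → Prop) (w : W), Sat R V w φ}

/-- Classical propositional tautologies (boxed formulas are treated as atoms). -/
def Taut (φ : Fml) : Prop :=
  ∀ v : Fml → Prop, ¬ v bot → (∀ α β, v (imp α β) ↔ (v α → v β)) → v φ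

/-- Normal modal logics. -/
structure IsNormal (L : Set Fml) : Prop where
  taut : ∀ φ, Taut φ → φ ∈ L
  axK : ∀ φ ψ, imp (box (imp φ ψ)) (imp (box φ) (box ψ)) ∈ L
  mp : ∀ φ ψ, imp φ ψ ∈ L → φ ∈ L → ψ ∈ L
  nec : ∀ φ, φ ∈ L → box φ ∈ L
  subst : ∀ (s : ℕ → Fml) (φ : Fml), φ ∈ L → φ.subst s ∈ L

/-- The finite model property: each formula outside `L` is refuted in a finite frame
validating `L`. -/
def HasFMP (L : Set Fml) : Prop :=
  ∀ φ, φ ∉ L → ∃ (W : Type) (_ : Finite W) (R : W → W → Prop), L ⊆ Log R ∧ φ ∉ Log R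

/-- The componentwise order on `ω^n`. -/
def powLE (n : ℕ) (x y : Fin n → ℕ) : Prop := ∀ i, x i ≤ y i

/-! ### Generalities -/

def neg (φ : Fml) : Fml := imp φ bot
def conj (φ ψ : Fml) : Fml := neg (imp φ (neg ψ))
def dia (φ : Fml) : Fml := neg (box (neg φ))

section
variable {W : Type} {R : W → W → Prop} {V : ℕ → W → Prop} {w : W}

@[simp] theorem sat_var {n : ℕ} : Sat R V w (var n) ↔ V n w := by simp [Sat]
@[simp] theorem sat_bot : Sat R V w bot ↔ False := by simp [Sat]
@[simp] theorem sat_imp {φ ψ : Fml} : Sat R V w (imp φ ψ) ↔ (Sat R V w φ → Sat R V w ψ) := by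
  simp [Sat]
@[simp] theorem sat_box {φ : Fml} : Sat R V w (box φ) ↔ ∀ v, R w v → Sat R V v φ := by
  simp [Sat]
@[simp] theorem sat_neg {φ : Fml} : Sat R V w (neg φ) ↔ ¬ Sat R V w φ := by
  simp [neg]
@[simp] theorem sat_conj {φ ψ : Fml} :
    Sat R V w (conj φ ψ) ↔ (Sat R V w φ ∧ Sat R V w ψ) := by
  simp [conj]
@[simp] theorem sat_dia {φ : Fml} : Sat R V w (dia φ) ↔ ∃ v, R w v ∧ Sat R V v φ := by
  simp [dia]

end

theorem sat_subst {W : Type} (R : W → W → Prop) (V : ℕ → W → Prop) (s : ℕ → Fml) (φ : Fml) :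
    ∀ w, Sat R V w (φ.subst s) ↔ Sat R (fun n v => Sat R V v (s n)) w φ := by
  induction φ with
  | var n => intro w; simp [Fml.subst]
  | bot => intro w; simp [Fml.subst]
  | imp φ ψ ih1 ih2 => intro w; simp [Fml.subst, ih1, ih2]
  | box φ ih => intro w; simp [Fml.subst, ih]

theorem log_isNormal {W : Type} (R : W → W → Prop) : IsNormal (Log R) where
  taut φ h := by
    intro V w
    exact h (fun ψ => Sat R V w ψ) (by simp) (by intro α β; simp)
  axK φ ψ := by
    intro V w
    simp only [sat_imp, sat_box]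
    intro h1 h2 v hv
    exact h1 v hv (h2 v hv)
  mp φ ψ h1 h2 := by
    intro V w
    exact (sat_imp.1 (h1 V w)) (h2 V w)
  nec φ h := by
    intro V w
    simp only [sat_box]
    intro v _
    exact h V v
  subst s φ h := by
    intro V w
    rw [sat_subst]
    exact h _ w

/-! ### The frame -/

/-- Points of the frame. -/
inductive Pt : Type
  | root : Pt
  | top : Pt
  | F : Fin 3 → ℕ → Pt
  | S : ℕ → Pt
  | T : ℕ → Pt

open Pt

/-- The accessibility relation. -/
def le : Pt → Pt → Prop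
  | root, _ => True
  | _, top => True
  | F i k, F j l => (i.val = j.val ∧ k = l) ∨ (k = l + 1 ∧ i.val ≠ j.val) ∨ l + 2 ≤ k
  | S k, S l => l ≤ k
  | S k, F j l => (k = l + 1 ∧ j.val = k % 3) ∨ (k = l + 2 ∧ j.val ≠ k % 3) ∨ l + 3 ≤ k
  | T k, T l => l ≤ k
  | T k, F j l =>
      (k = l + 1 ∧ j.val = (2 * k) % 3) ∨ (k = l + 2 ∧ j.val ≠ (2 * k) % 3) ∨ l + 3 ≤ k
  | _, _ => False

@[simp] theorem le_root (v : Pt) : le root v ↔ True := by cases v <;> simp [le]
@[simp] theorem le_top (v : Pt) : le v top ↔ True := by cases v <;> simp [le]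
@[simp] theorem le_F_F (i j : Fin 3) (k l : ℕ) : le (F i k) (F j l) ↔
    ((i.val = j.val ∧ k = l) ∨ (k = l + 1 ∧ i.val ≠ j.val) ∨ l + 2 ≤ k) := by simp [le]
@[simp] theorem le_S_S (k l : ℕ) : le (S k) (S l) ↔ l ≤ k := by simp [le]
@[simp] theorem le_T_T (k l : ℕ) : le (T k) (T l) ↔ l ≤ k := by simp [le]
@[simp] theorem le_S_F (j : Fin 3) (k l : ℕ) : le (S k) (F j l) ↔
    ((k = l + 1 ∧ j.val = k % 3) ∨ (k = l + 2 ∧ j.val ≠ k % 3) ∨ l + 3 ≤ k) := by simp [le]
@[simp] theorem le_T_F (j : Fin 3) (k l : ℕ) : le (T k) (F j l) ↔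
    ((k = l + 1 ∧ j.val = (2 * k) % 3) ∨ (k = l + 2 ∧ j.val ≠ (2 * k) % 3) ∨ l + 3 ≤ k) := by
  simp [le]
@[simp] theorem le_top_root : le top root ↔ False := by simp [le]
@[simp] theorem le_top_F (i : Fin 3) (k : ℕ) : le top (F i k) ↔ False := by simp [le]
@[simp] theorem le_top_S (k : ℕ) : le top (S k) ↔ False := by simp [le]
@[simp] theorem le_top_T (k : ℕ) : le top (T k) ↔ False := by simp [le]
@[simp] theorem le_F_root (i : Fin 3) (k : ℕ) : le (F i k) root ↔ False := by simp [le]
@[simp] theorem le_F_S (i : Fin 3) (k l : ℕ) : le (F i k) (S l) ↔ False := by simp [le]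
@[simp] theorem le_F_T (i : Fin 3) (k l : ℕ) : le (F i k) (T l) ↔ False := by simp [le]
@[simp] theorem le_S_root (k : ℕ) : le (S k) root ↔ False := by simp [le]
@[simp] theorem le_S_T (k l : ℕ) : le (S k) (T l) ↔ False := by simp [le]
@[simp] theorem le_T_root (k : ℕ) : le (T k) root ↔ False := by simp [le]
@[simp] theorem le_T_S (k l : ℕ) : le (T k) (S l) ↔ False := by simp [le]

/-! ### Approximation by `ω²` -/

/-- The map `ω² → Pt` at stage `M` (with `N = 3M+1`). -/
def g (M : ℕ) (p : ℕ × ℕ) : Pt :=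
  if 3 * M + 1 < p.1 + p.2 then top
  else if p.1 = 0 ∧ p.2 = 0 then root
  else if p.2 = 0 then S (3 * M + 1 - p.1)
  else if p.1 = 0 then T (3 * M + 1 - p.2)
  else F ⟨(p.2 + 2 * p.1) % 3, Nat.mod_lt _ (by norm_num)⟩ (3 * M + 1 - p.1 - p.2)

theorem g_cases (M : ℕ) (x y : ℕ) :
    (3 * M + 1 < x + y ∧ g M (x, y) = top) ∨
    (x = 0 ∧ y = 0 ∧ g M (x, y) = root) ∨
    (x + y ≤ 3 * M + 1 ∧ 1 ≤ x ∧ y = 0 ∧ g M (x, y) = S (3 * M + 1 - x)) ∨
    (x + y ≤ 3 * M + 1 ∧ x = 0 ∧ 1 ≤ y ∧ g M (x, y) = T (3 * M + 1 - y)) ∨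
    (x + y ≤ 3 * M + 1 ∧ 1 ≤ x ∧ 1 ≤ y ∧
      g M (x, y) = F ⟨(y + 2 * x) % 3, Nat.mod_lt _ (by norm_num)⟩ (3 * M + 1 - x - y)) := by
  unfold g
  simp only
  by_cases h1 : 3 * M + 1 < x + y
  · left; simp [h1]
  · right
    by_cases h2 : x = 0 ∧ y = 0
    · left; simp [h2]
    · right
      by_cases h3 : y = 0
      · left
        subst h3
        have : x ≠ 0 := fun h => h2 ⟨h, rfl⟩
        rw [if_neg h1, if_neg h2, if_pos rfl]
        refine ⟨by omega, by omega, rfl, rfl⟩
      · right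
        by_cases h4 : x = 0
        · left
          rw [if_neg h1, if_neg h2, if_neg h3, if_pos h4]
          refine ⟨by omega, h4, by omega, rfl⟩
        · right
          rw [if_neg h1, if_neg h2, if_neg h3, if_neg h4]
          refine ⟨by omega, by omega, by omega, rfl⟩

theorem g_top {M x y : ℕ} (h : 3 * M + 1 < x + y) : g M (x, y) = top := by
  unfold g; simp [h]

theorem g_root {M : ℕ} : g M (0, 0) = root := by
  unfold g; simp

theorem g_S {M x : ℕ} (h : x ≤ 3 * M + 1) (h1 : 1 ≤ x) : g M (x, 0) = S (3 * M + 1 - x) := by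
  unfold g
  have : ¬ (3 * M + 1 < x + 0) := by omega
  have h2 : x ≠ 0 := by omega
  simp [h2]; omega

theorem g_T {M y : ℕ} (h : y ≤ 3 * M + 1) (h1 : 1 ≤ y) : g M (0, y) = T (3 * M + 1 - y) := by
  unfold g
  have h2 : y ≠ 0 := by omega
  simp [h2]; omega

theorem g_F {M x y : ℕ} (h : x + y ≤ 3 * M + 1) (hx : 1 ≤ x) (hy : 1 ≤ y) :
    g M (x, y) = F ⟨(y + 2 * x) % 3, Nat.mod_lt _ (by norm_num)⟩ (3 * M + 1 - x - y) := by
  unfold g
  have h1 : ¬ (3 * M + 1 < x + y) := by omega
  have h2 : x ≠ 0 := by omega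
  have h3 : y ≠ 0 := by omega
  simp [h1, h2, h3]

theorem g_forth (M : ℕ) (x y x' y' : ℕ) (hx : x ≤ x') (hy : y ≤ y') :
    le (g M (x, y)) (g M (x', y')) := by
  rcases g_cases M x y with ⟨h, e⟩ | ⟨h1, h2, e⟩ | ⟨h, h1, h2, e⟩ | ⟨h, h1, h2, e⟩ | ⟨h, h1, h2, e⟩ <;>
  rcases g_cases M x' y' with ⟨h', e'⟩ | ⟨h1', h2', e'⟩ | ⟨h', h1', h2', e'⟩ |
    ⟨h', h1', h2', e'⟩ | ⟨h', h1', h2', e'⟩ <;>
  rw [e, e'] <;> simp <;> omega

theorem g_back (M : ℕ) (x y : ℕ) (hxy : ¬ (x = 0 ∧ y = 0)) (v : Pt) (hv : le (g M (x, y)) v) :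
    ∃ x' y', x ≤ x' ∧ y ≤ y' ∧ g M (x', y') = v := by
  cases v with
  | root =>
    exfalso
    rcases g_cases M x y with ⟨h, e⟩ | ⟨h1, h2, e⟩ | ⟨h, h1, h2, e⟩ | ⟨h, h1, h2, e⟩ | ⟨h, h1, h2, e⟩
    · rw [e] at hv; simp at hv
    · exact hxy ⟨h1, h2⟩
    · rw [e] at hv; simp at hv
    · rw [e] at hv; simp at hv
    · rw [e] at hv; simp at hv
  | top =>
    refine ⟨x + (3 * M + 2), y, by omega, le_refl _, g_top (by omega)⟩
  | S l =>
    rcases g_cases M x y with ⟨h, e⟩ | ⟨h1, h2, e⟩ | ⟨h, h1, h2, e⟩ | ⟨h, h1, h2, e⟩ | ⟨h, h1, h2, e⟩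
    · rw [e] at hv; simp at hv
    · exact absurd ⟨h1, h2⟩ hxy
    · rw [e] at hv; simp at hv
      refine ⟨3 * M + 1 - l, 0, by omega, by omega, ?_⟩
      rw [g_S (by omega) (by omega)]
      congr 1; omega
    · rw [e] at hv; simp at hv
    · rw [e] at hv; simp at hv
  | T l =>
    rcases g_cases M x y with ⟨h, e⟩ | ⟨h1, h2, e⟩ | ⟨h, h1, h2, e⟩ | ⟨h, h1, h2, e⟩ | ⟨h, h1, h2, e⟩
    · rw [e] at hv; simp at hv
    · exact absurd ⟨h1, h2⟩ hxy
    · rw [e] at hv; simp at hv
    · rw [e] at hv; simp at hv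
      refine ⟨0, 3 * M + 1 - l, by omega, by omega, ?_⟩
      rw [g_T (by omega) (by omega)]
      congr 1; omega
    · rw [e] at hv; simp at hv
  | F j l =>
    have hj := j.isLt
    -- it suffices to find a, b with the right label and level
    suffices H : ∃ x' y', x ≤ x' ∧ y ≤ y' ∧ 1 ≤ x' ∧ 1 ≤ y' ∧ x' + y' ≤ 3 * M + 1 ∧
        (y' + 2 * x') % 3 = j.val ∧ 3 * M + 1 - x' - y' = l by
      obtain ⟨x', y', h1, h2, h3, h4, h5, h6, h7⟩ := H
      refine ⟨x', y', h1, h2, ?_⟩
      rw [g_F h5 h3 h4]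
      congr 1
      exact Fin.ext h6
    rcases g_cases M x y with ⟨h, e⟩ | ⟨h1, h2, e⟩ | ⟨h, h1, h2, e⟩ | ⟨h, h1, h2, e⟩ | ⟨h, h1, h2, e⟩
    · rw [e] at hv; simp at hv
    · exact absurd ⟨h1, h2⟩ hxy
    · rw [e] at hv; simp only [le_S_F] at hv
      -- x ≥ 1, y = 0
      rcases hv with ⟨hk, hl⟩ | ⟨hk, hl⟩ | hk
      · exact ⟨x, 1, by omega, by omega, by omega, by omega, by omega, by omega, by omega⟩
      · by_cases hc : (2 + 2 * x) % 3 = j.val
        · exact ⟨x, 2, by omega, by omega, by omega, by omega, by omega, by omega, by omega⟩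
        · refine ⟨x + 1, 1, by omega, by omega, by omega, by omega, by omega, ?_, by omega⟩
          have hx3 : x % 3 = 0 ∨ x % 3 = 1 ∨ x % 3 = 2 := by omega
          rcases hx3 with h3 | h3 | h3 <;> omega
      · -- distance d = 3M+1-x-l ≥ 3
        obtain ⟨d, hd⟩ : ∃ d, 3 * M + 1 - x = l + 3 + d := ⟨3 * M + 1 - x - l - 3, by omega⟩
        by_cases c0 : ((3 + d) + 2 * x) % 3 = j.val
        · exact ⟨x, 3 + d, by omega, by omega, by omega, by omega, by omega, by omega, by omega⟩
        · by_cases c1 : ((2 + d) + 2 * (x + 1)) % 3 = j.val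
          · exact ⟨x + 1, 2 + d, by omega, by omega, by omega, by omega, by omega, by omega,
              by omega⟩
          · exact ⟨x + 2, 1 + d, by omega, by omega, by omega, by omega, by omega, by omega,
              by omega⟩
    · rw [e] at hv; simp only [le_T_F] at hv
      rcases hv with ⟨hk, hl⟩ | ⟨hk, hl⟩ | hk
      · exact ⟨1, y, by omega, by omega, by omega, by omega, by omega, by omega, by omega⟩
      · by_cases hc : (y + 2 * 2) % 3 = j.val
        · exact ⟨2, y, by omega, by omega, by omega, by omega, by omega, by omega, by omega⟩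
        · refine ⟨1, y + 1, by omega, by omega, by omega, by omega, by omega, ?_, by omega⟩
          have hx3 : y % 3 = 0 ∨ y % 3 = 1 ∨ y % 3 = 2 := by omega
          rcases hx3 with h3 | h3 | h3 <;> omega
      · obtain ⟨d, hd⟩ : ∃ d, 3 * M + 1 - y = l + 3 + d := ⟨3 * M + 1 - y - l - 3, by omega⟩
        by_cases c0 : (y + 2 * (3 + d)) % 3 = j.val
        · exact ⟨3 + d, y, by omega, by omega, by omega, by omega, by omega, by omega, by omega⟩
        · by_cases c1 : ((y + 1) + 2 * (2 + d)) % 3 = j.val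
          · exact ⟨2 + d, y + 1, by omega, by omega, by omega, by omega, by omega, by omega,
              by omega⟩
          · exact ⟨1 + d, y + 2, by omega, by omega, by omega, by omega, by omega, by omega,
              by omega⟩
    · rw [e] at hv; simp only [le_F_F] at hv
      rcases hv with ⟨hk, hl⟩ | ⟨hk, hl⟩ | hk
      · exact ⟨x, y, by omega, by omega, by omega, by omega, by omega, by omega, by omega⟩
      · by_cases hc : ((y + 1) + 2 * x) % 3 = j.val
        · exact ⟨x, y + 1, by omega, by omega, by omega, by omega, by omega, by omega, by omega⟩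
        · exact ⟨x + 1, y, by omega, by omega, by omega, by omega, by omega, by omega, by omega⟩
      · obtain ⟨d, hd⟩ : ∃ d, 3 * M + 1 - x - y = l + 2 + d :=
          ⟨3 * M + 1 - x - y - l - 2, by omega⟩
        by_cases c0 : ((y + (2 + d)) + 2 * x) % 3 = j.val
        · exact ⟨x, y + (2 + d), by omega, by omega, by omega, by omega, by omega, by omega,
            by omega⟩
        · by_cases c1 : ((y + (1 + d)) + 2 * (x + 1)) % 3 = j.val
          · exact ⟨x + 1, y + (1 + d), by omega, by omega, by omega, by omega, by omega, by omega,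
              by omega⟩
          · exact ⟨x + 2, y + d, by omega, by omega, by omega, by omega, by omega, by omega,
              by omega⟩

theorem g_hit (v : Pt) (hv : v ≠ root) :
    ∃ M₀, ∀ M, M₀ ≤ M → ∃ x y, ¬ (x = 0 ∧ y = 0) ∧ g M (x, y) = v := by
  cases v with
  | root => exact absurd rfl hv
  | top => exact ⟨0, fun M _ => ⟨3 * M + 2, 0, by omega, g_top (by omega)⟩⟩
  | S l =>
    refine ⟨l, fun M hM => ⟨3 * M + 1 - l, 0, by omega, ?_⟩⟩
    rw [g_S (by omega) (by omega)]; congr 1; omega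
  | T l =>
    refine ⟨l, fun M hM => ⟨0, 3 * M + 1 - l, by omega, ?_⟩⟩
    rw [g_T (by omega) (by omega)]; congr 1; omega
  | F j l =>
    have hj := j.isLt
    refine ⟨l + 2, fun M hM => ?_⟩
    suffices H : ∃ x' y', 1 ≤ x' ∧ 1 ≤ y' ∧ x' + y' ≤ 3 * M + 1 ∧
        (y' + 2 * x') % 3 = j.val ∧ 3 * M + 1 - x' - y' = l by
      obtain ⟨x', y', h3, h4, h5, h6, h7⟩ := H
      refine ⟨x', y', by omega, ?_⟩
      rw [g_F h5 h3 h4]
      congr 1
      exact Fin.ext h6
    by_cases c0 : ((3 * M - l) + 2 * 1) % 3 = j.val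
    · exact ⟨1, 3 * M - l, by omega, by omega, by omega, by omega, by omega⟩
    · by_cases c1 : ((3 * M - l - 1) + 2 * 2) % 3 = j.val
      · exact ⟨2, 3 * M - l - 1, by omega, by omega, by omega, by omega, by omega⟩
      · exact ⟨3, 3 * M - l - 2, by omega, by omega, by omega, by omega, by omega⟩


/-- The order of `ω²` on pairs. -/
def le2 (p q : ℕ × ℕ) : Prop := p.1 ≤ q.1 ∧ p.2 ≤ q.2

theorem sat_g_off (M : ℕ) (V : ℕ → Pt → Prop) (φ : Fml) :
    ∀ p : ℕ × ℕ, ¬ (p.1 = 0 ∧ p.2 = 0) →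
      (Sat le2 (fun n q => V n (g M q)) p φ ↔ Sat le V (g M p) φ) := by
  induction φ with
  | var n => intro p _; simp
  | bot => intro p _; simp
  | imp φ ψ ih1 ih2 => intro p hp; simp [ih1 p hp, ih2 p hp]
  | box φ ih =>
    intro p hp
    simp only [sat_box]
    constructor
    · intro h v hv
      obtain ⟨x', y', h1, h2, h3⟩ := g_back M p.1 p.2 hp v hv
      have := h (x', y') ⟨h1, h2⟩
      rw [ih (x', y') (by rintro ⟨a, b⟩; simp at a b; omega)] at this
      rwa [h3] at this
    · intro h q hq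
      obtain ⟨h1, h2⟩ := hq
      rw [ih q (by rintro ⟨a, b⟩; omega)]
      exact h _ (g_forth M p.1 p.2 q.1 q.2 h1 h2)

theorem sat_g_root (V : ℕ → Pt → Prop) (φ : Fml) :
    ∃ M₀, ∀ M, M₀ ≤ M →
      (Sat le2 (fun n q => V n (g M q)) (0, 0) φ ↔ Sat le V root φ) := by
  induction φ with
  | var n => exact ⟨0, fun M _ => by simp [g_root]⟩
  | bot => exact ⟨0, fun M _ => by simp⟩
  | imp φ ψ ih1 ih2 =>
    obtain ⟨M1, h1⟩ := ih1
    obtain ⟨M2, h2⟩ := ih2
    refine ⟨max M1 M2, fun M hM => ?_⟩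
    simp [h1 M (le_trans (le_max_left _ _) hM), h2 M (le_trans (le_max_right _ _) hM)]
  | box φ ih =>
    obtain ⟨M1, h1⟩ := ih
    by_cases hb : ∀ v, Sat le V v φ
    · refine ⟨M1, fun M hM => ?_⟩
      simp only [sat_box]
      constructor
      · intro _ v _; exact hb v
      · intro _ q _
        by_cases hq : q.1 = 0 ∧ q.2 = 0
        · have : q = (0, 0) := Prod.ext hq.1 hq.2
          rw [this, h1 M hM]; exact hb _
        · rw [sat_g_off M V φ q hq]; exact hb _
    · push Not at hb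
      obtain ⟨v, hv⟩ := hb
      by_cases hr : v = root
      · refine ⟨M1, fun M hM => ?_⟩
        simp only [sat_box]
        constructor
        · intro h
          exact absurd ((h1 M hM).1 (h (0, 0) ⟨le_refl _, le_refl _⟩)) (hr ▸ hv)
        · intro h
          exact absurd (h v (by simp)) hv
      · obtain ⟨M2, h2⟩ := g_hit v hr
        refine ⟨max M1 M2, fun M hM => ?_⟩
        obtain ⟨x, y, hxy, hg⟩ := h2 M (le_trans (le_max_right _ _) hM)
        simp only [sat_box]
        constructor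
        · intro h
          have := h (x, y) ⟨Nat.zero_le _, Nat.zero_le _⟩
          rw [sat_g_off M V φ (x, y) hxy, hg] at this
          exact absurd this hv
        · intro h
          exact absurd (h v (by simp)) hv

/-- The logic of `ω²` is contained in the logic of the frame. -/
theorem log_le2_subset : Log le2 ⊆ Log le := by
  intro φ hφ V w
  by_cases hw : w = root
  · subst hw
    obtain ⟨M₀, h⟩ := sat_g_root V φ
    exact (h M₀ (le_refl _)).1 (hφ _ _)
  · obtain ⟨M₀, h⟩ := g_hit w hw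
    obtain ⟨x, y, hxy, hg⟩ := h M₀ (le_refl _)
    have := (sat_g_off M₀ V φ (x, y) hxy).1 (hφ _ _)
    rwa [hg] at this

theorem log_pow_subset (n : ℕ) (hn : 2 ≤ n) : Log (powLE n) ⊆ Log le2 := by
  intro φ hφ V
  let i0 : Fin n := ⟨0, by omega⟩
  let i1 : Fin n := ⟨1, by omega⟩
  have hne : i0 ≠ i1 := by intro h; simp [i0, i1] at h
  let f : (Fin n → ℕ) → ℕ × ℕ := fun x => (x i0, x i1)
  have key : ∀ ψ : Fml, ∀ x, Sat (powLE n) (fun m y => V m (f y)) x ψ ↔ Sat le2 V (f x) ψ := by
    intro ψ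
    induction ψ with
    | var m => intro x; simp
    | bot => intro x; simp
    | imp a b iha ihb => intro x; simp [iha, ihb]
    | box a ih =>
      intro x
      simp only [sat_box]
      constructor
      · intro h q hq
        obtain ⟨h1, h2⟩ := hq
        let y : Fin n → ℕ := fun i => if i = i0 then q.1 else if i = i1 then q.2 else x i
        have hy : f y = q := by
          apply Prod.ext
          · simp [f, y]
          · simp [f, y, Ne.symm hne]
        have := h y (by
          intro i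
          by_cases hi0 : i = i0
          · simp only [y, hi0]; simpa using h1
          · by_cases hi1 : i = i1
            · simp only [y, hi1, Ne.symm hne]; simpa using h2
            · simp [y, hi0, hi1])
        rw [ih, hy] at this
        exact this
      · intro h y hy
        rw [ih]
        exact h _ ⟨hy i0, hy i1⟩
  intro w
  have := (key φ (fun i => if i = i0 then w.1 else w.2)).1 (hφ _ _)
  have hf : f (fun i => if i = i0 then w.1 else w.2) = w := by
    apply Prod.ext
    · simp [f]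
    · simp [f, Ne.symm hne]
  rwa [hf] at this

/-! ### The formulas -/

/-- `x` sees class `a` and class `b`, but none of the classes `c`, `3`, `4`. -/
def pairF (a b c : ℕ) : Fml :=
  conj (conj (dia (var a)) (dia (var b)))
    (conj (neg (dia (var c))) (conj (neg (dia (var 3))) (neg (dia (var 4)))))

/-- `a` and `b` are independent classes. -/
def indep (a b : ℕ) : Fml := box (imp (var a) (box (neg (var b))))

def bigConj : List Fml → Fml
  | [] => imp bot bot
  | φ :: l => conj φ (bigConj l)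

theorem sat_bigConj {W : Type} {R : W → W → Prop} {V : ℕ → W → Prop} {w : W} (l : List Fml) :
    Sat R V w (bigConj l) ↔ ∀ φ ∈ l, Sat R V w φ := by
  induction l with
  | nil => simp [bigConj]
  | cons a l ih => simp [bigConj, ih]

def five : List ℕ := [0, 1, 2, 3, 4]

def psi : Fml :=
  conj (bigConj (five.map fun a => dia (var a)))
    (conj (bigConj (five.flatMap fun a => (five.filter fun b => b ≠ a).map fun b => indep a b))
      (conj (dia (pairF 0 1 2)) (conj (dia (pairF 0 2 1)) (dia (pairF 1 2 0)))))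

/-- `delta l j` describes the point number `j` on the `l`-th level above. -/
def delta : ℕ → ℕ → Fml
  | 0, j => var j
  | l + 1, j =>
      conj (neg (dia (delta l j)))
        (conj (conj (dia (delta l ((j + 1) % 3))) (dia (delta l ((j + 2) % 3))))
          (conj (neg (dia (var 3))) (neg (dia (var 4)))))

theorem sat_psi {W : Type} {R : W → W → Prop} {V : ℕ → W → Prop} {w : W} :
    Sat R V w psi ↔
      (∀ a < 5, ∃ v, R w v ∧ V a v) ∧
      (∀ a < 5, ∀ b < 5, b ≠ a → ∀ v, R w v → V a v → ∀ u, R v u → ¬ V b u) ∧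
      (∃ v, R w v ∧ Sat R V v (pairF 0 1 2)) ∧ (∃ v, R w v ∧ Sat R V v (pairF 0 2 1)) ∧
      (∃ v, R w v ∧ Sat R V v (pairF 1 2 0)) := by
  unfold psi
  simp only [sat_conj, sat_bigConj, sat_dia]
  refine and_congr ?_ (and_congr ?_ Iff.rfl)
  · constructor
    · intro h a ha
      have := h (dia (var a)) (by
        simp only [List.mem_map, five]
        exact ⟨a, by simp; omega, rfl⟩)
      simpa using this
    · intro h φ hφ
      simp only [List.mem_map, five] at hφ
      obtain ⟨a, ha, rfl⟩ := hφ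
      simpa using h a (by simp at ha; omega)
  · constructor
    · intro h a ha b hb hab v hv hVa u hu
      have := h (indep a b) (by
        simp only [List.mem_flatMap, List.mem_map, List.mem_filter, five]
        exact ⟨a, by simp; omega, b, ⟨by simp; omega, by simpa using hab⟩, rfl⟩)
      simp only [indep, sat_box, sat_imp, sat_var, sat_neg] at this
      exact this v hv hVa u hu
    · intro h φ hφ
      simp only [List.mem_flatMap, List.mem_map, List.mem_filter, five] at hφ
      obtain ⟨a, ha, b, ⟨hb, hab⟩, rfl⟩ := hφ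
      simp only [indep, sat_box, sat_imp, sat_var, sat_neg]
      intro v hv hVa u hu
      exact h a (by simp at ha; omega) b (by simp at hb; omega) (by simpa using hab) v hv hVa u hu

/-! ### Antichains of size five -/

/-- A partition of the non-extreme points into five chains. -/
def chain : Pt → ℕ
  | root => 0
  | top => 0
  | F i k => (i.val + 2 * k) % 3
  | S _ => 3
  | T _ => 4

theorem chain_lt (v : Pt) : chain v < 5 := by
  cases v <;> simp [chain]
  omega

theorem chain_comp {u v : Pt} (h : chain u = chain v) : le u v ∨ le v u := by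
  cases u <;> cases v <;> simp [chain] at h ⊢ <;> omega

theorem incomp_not_root {u v : Pt} (h : ¬ le u v) : u ≠ root := by
  rintro rfl; simp at h

theorem incomp_not_top {u v : Pt} (h : ¬ le u v) : v ≠ top := by
  rintro rfl; simp at h

/-- The point with chain number `c < 3` on level `m`. -/
def fpt (c m : ℕ) : Pt := F ⟨(c + m) % 3, Nat.mod_lt _ (by norm_num)⟩ m

theorem antichain_five (α : Fin 5 → Pt) (h : ∀ i j, i ≠ j → ¬ le (α i) (α j)) :
    (∀ c < 5, ∃ i, chain (α i) = c) ∧
    ∃ m, (∀ i, chain (α i) < 3 → α i = fpt (chain (α i)) m) ∧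
      (∀ i, chain (α i) = 3 → ∃ k ≤ m, α i = S k) ∧
      (∀ i, chain (α i) = 4 → ∃ k ≤ m, α i = T k) := by
  have hne : ∀ i, α i ≠ root ∧ α i ≠ top := by
    intro i
    obtain ⟨j, hj⟩ : ∃ j : Fin 5, j ≠ i := exists_ne i
    exact ⟨incomp_not_root (h i j (Ne.symm hj)), incomp_not_top (h j i hj)⟩
  have hinj : Function.Injective (fun i : Fin 5 => (⟨chain (α i), chain_lt _⟩ : Fin 5)) := by
    intro i j hij
    by_contra hne'
    have : chain (α i) = chain (α j) := by simpa using hij
    rcases chain_comp this with h1 | h1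
    · exact h i j hne' h1
    · exact h j i (Ne.symm hne') h1
  have hsurj := Finite.surjective_of_injective hinj
  have hs : ∀ c < 5, ∃ i, chain (α i) = c := by
    intro c hc
    obtain ⟨i, hi⟩ := hsurj ⟨c, hc⟩
    exact ⟨i, by simpa using hi⟩
  have hinj' : ∀ i j, chain (α i) = chain (α j) → i = j := by
    intro i j hij
    exact hinj (by simpa using hij)
  refine ⟨hs, ?_⟩
  have hF : ∀ i, chain (α i) < 3 → ∃ (a : Fin 3) (k : ℕ), α i = F a k := by
    intro i hi
    have := hne i
    cases hα : α i with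
    | root => exact absurd hα this.1
    | top => exact absurd hα this.2
    | F a k => exact ⟨a, k, rfl⟩
    | S k => rw [hα] at hi; simp [chain] at hi
    | T k => rw [hα] at hi; simp [chain] at hi
  obtain ⟨i0, h0⟩ := hs 0 (by norm_num)
  obtain ⟨i1, h1⟩ := hs 1 (by norm_num)
  obtain ⟨i2, h2⟩ := hs 2 (by norm_num)
  have n01 : i0 ≠ i1 := by rintro rfl; omega
  have n02 : i0 ≠ i2 := by rintro rfl; omega
  have n12 : i1 ≠ i2 := by rintro rfl; omega
  obtain ⟨a0, k0, e0⟩ := hF i0 (by omega)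
  obtain ⟨a1, k1, e1⟩ := hF i1 (by omega)
  obtain ⟨a2, k2, e2⟩ := hF i2 (by omega)
  rw [e0] at h0; rw [e1] at h1; rw [e2] at h2
  simp only [chain] at h0 h1 h2
  have c01 := h i0 i1 n01
  have c10 := h i1 i0 n01.symm
  have c02 := h i0 i2 n02
  have c20 := h i2 i0 n02.symm
  have c12 := h i1 i2 n12
  have c21 := h i2 i1 n12.symm
  rw [e0, e1] at c01 c10; rw [e0, e2] at c02 c20; rw [e1, e2] at c12 c21
  simp only [le_F_F] at c01 c10 c02 c20 c12 c21
  have b0 := a0.isLt
  have b1 := a1.isLt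
  have b2 := a2.isLt
  have hk01 : k0 = k1 := by omega
  have hk02 : k0 = k2 := by omega
  subst hk01 hk02
  refine ⟨k0, ?_, ?_, ?_⟩
  · intro i hi
    have hcase : i = i0 ∨ i = i1 ∨ i = i2 := by
      have : chain (α i) = 0 ∨ chain (α i) = 1 ∨ chain (α i) = 2 := by omega
      rcases this with hh | hh | hh
      · left; apply hinj'; rw [hh, e0]; simp [chain]; omega
      · right; left; apply hinj'; rw [hh, e1]; simp [chain]; omega
      · right; right; apply hinj'; rw [hh, e2]; simp [chain]; omega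
    rcases hcase with rfl | rfl | rfl
    · rw [e0]; simp only [fpt, chain]; congr 1; apply Fin.ext; simp only; omega
    · rw [e1]; simp only [fpt, chain]; congr 1; apply Fin.ext; simp only; omega
    · rw [e2]; simp only [fpt, chain]; congr 1; apply Fin.ext; simp only; omega
  · intro i hi
    cases hα : α i with
    | root => exact absurd hα (hne i).1
    | top => exact absurd hα (hne i).2
    | F a k => rw [hα] at hi; simp [chain] at hi; omega
    | T k => rw [hα] at hi; simp [chain] at hi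
    | S k =>
      refine ⟨k, ?_, rfl⟩
      have d0 := h i i0 (by rintro rfl; rw [e0] at hα; simp at hα)
      have d1 := h i i1 (by rintro rfl; rw [e1] at hα; simp at hα)
      have d2 := h i i2 (by rintro rfl; rw [e2] at hα; simp at hα)
      rw [hα, e0] at d0; rw [hα, e1] at d1; rw [hα, e2] at d2
      simp only [le_S_F] at d0 d1 d2
      by_contra hk
      have hk3 : k = k0 + 1 ∨ k = k0 + 2 ∨ k0 + 3 ≤ k := by omega
      have hm : k0 % 3 = 0 ∨ k0 % 3 = 1 ∨ k0 % 3 = 2 := by omega
      rcases hk3 with h3 | h3 | h3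
      · rcases hm with hm | hm | hm <;> omega
      · rcases hm with hm | hm | hm <;> omega
      · omega
  · intro i hi
    cases hα : α i with
    | root => exact absurd hα (hne i).1
    | top => exact absurd hα (hne i).2
    | F a k => rw [hα] at hi; simp [chain] at hi; omega
    | S k => rw [hα] at hi; simp [chain] at hi
    | T k =>
      refine ⟨k, ?_, rfl⟩
      have d0 := h i i0 (by rintro rfl; rw [e0] at hα; simp at hα)
      have d1 := h i i1 (by rintro rfl; rw [e1] at hα; simp at hα)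
      have d2 := h i i2 (by rintro rfl; rw [e2] at hα; simp at hα)
      rw [hα, e0] at d0; rw [hα, e1] at d1; rw [hα, e2] at d2
      simp only [le_T_F] at d0 d1 d2
      by_contra hk
      have hk3 : k = k0 + 1 ∨ k = k0 + 2 ∨ k0 + 3 ≤ k := by omega
      have hm : k0 % 3 = 0 ∨ k0 % 3 = 1 ∨ k0 % 3 = 2 := by omega
      rcases hk3 with h3 | h3 | h3
      · rcases hm with hm | hm | hm <;> omega
      · rcases hm with hm | hm | hm <;> omega
      · omega

theorem fpt_inj {c c' m m' : ℕ} (hc : c < 3) (hc' : c' < 3) (h : fpt c m = fpt c' m') :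
    c = c' ∧ m = m' := by
  simp only [fpt, F.injEq, Fin.mk.injEq] at h
  omega

/-- `z` sees a point of class `a`. -/
def Sees (V : ℕ → Pt → Prop) (z : Pt) (a : Fin 5) : Prop := ∃ u, le z u ∧ V a.val u

/-- some point sees exactly the classes `a` and `b`. -/
def ExPair (V : ℕ → Pt → Prop) (a b : Fin 5) : Prop :=
  ∃ z, Sees V z a ∧ Sees V z b ∧ ∀ i, i ≠ a → i ≠ b → ¬ Sees V z i

theorem ExPair.symm {V : ℕ → Pt → Prop} {a b : Fin 5} (h : ExPair V a b) : ExPair V b a := by
  obtain ⟨z, h1, h2, h3⟩ := h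
  exact ⟨z, h2, h1, fun i hi hi' => h3 i hi' hi⟩

theorem exists_third : ∀ a b : Fin 5, ∃ i : Fin 5, i ≠ a ∧ i ≠ b := by decide

theorem arithS (m k' cb : ℕ) (hcb : cb < 3) (hw : le (S k') (fpt cb m))
    (hno : ∀ v < 3, v ≠ cb → ¬ le (S k') (fpt v m)) : cb = 1 := by
  simp only [fpt, le_S_F] at hw hno
  have hk : k' = m + 1 ∨ k' = m + 2 ∨ m + 3 ≤ k' := by clear hno; omega
  obtain ⟨v, hv, hvc, w, hwl, hwc, hvw⟩ : ∃ v < 3, v ≠ cb ∧ ∃ w < 3, w ≠ cb ∧ v ≠ w := by
    clear hw hno hk
    have hcb : cb = 0 ∨ cb = 1 ∨ cb = 2 := by omega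
    rcases hcb with rfl | rfl | rfl
    · exact ⟨1, by norm_num, by norm_num, 2, by norm_num, by norm_num, by norm_num⟩
    · exact ⟨0, by norm_num, by norm_num, 2, by norm_num, by norm_num, by norm_num⟩
    · exact ⟨0, by norm_num, by norm_num, 1, by norm_num, by norm_num, by norm_num⟩
  have qv := hno v hv hvc
  have qw := hno w hwl hwc
  clear hno
  rcases hk with rfl | rfl | hk
  · have : (cb + m) % 3 = (m + 1) % 3 := by omega
    clear qv qw hw
    omega
  · have h1 : (v + m) % 3 = (m + 2) % 3 := by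
      by_contra h; exact qv (Or.inr (Or.inl ⟨rfl, h⟩))
    have h2 : (w + m) % 3 = (m + 2) % 3 := by
      by_contra h; exact qw (Or.inr (Or.inl ⟨rfl, h⟩))
    clear qv qw hw
    omega
  · exact absurd (Or.inr (Or.inr hk)) qv

theorem arithT (m k' cb : ℕ) (hcb : cb < 3) (hw : le (T k') (fpt cb m))
    (hno : ∀ v < 3, v ≠ cb → ¬ le (T k') (fpt v m)) : (cb + m) % 3 = (2 * (m + 1)) % 3 := by
  simp only [fpt, le_T_F] at hw hno
  have hk : k' = m + 1 ∨ k' = m + 2 ∨ m + 3 ≤ k' := by clear hno; omega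
  obtain ⟨v, hv, hvc, w, hwl, hwc, hvw⟩ : ∃ v < 3, v ≠ cb ∧ ∃ w < 3, w ≠ cb ∧ v ≠ w := by
    clear hw hno hk
    have hcb : cb = 0 ∨ cb = 1 ∨ cb = 2 := by omega
    rcases hcb with rfl | rfl | rfl
    · exact ⟨1, by norm_num, by norm_num, 2, by norm_num, by norm_num, by norm_num⟩
    · exact ⟨0, by norm_num, by norm_num, 2, by norm_num, by norm_num, by norm_num⟩
    · exact ⟨0, by norm_num, by norm_num, 1, by norm_num, by norm_num, by norm_num⟩
  have qv := hno v hv hvc
  have qw := hno w hwl hwc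
  clear hno
  rcases hk with rfl | rfl | hk
  · omega
  · have h1 : (v + m) % 3 = (2 * (m + 2)) % 3 := by
      by_contra h; exact qv (Or.inr (Or.inl ⟨rfl, h⟩))
    have h2 : (w + m) % 3 = (2 * (m + 2)) % 3 := by
      by_contra h; exact qw (Or.inr (Or.inl ⟨rfl, h⟩))
    clear qv qw hw
    omega
  · exact absurd (Or.inr (Or.inr hk)) qv

theorem arith3 (f : Fin 5 → ℕ) (hinj : ∀ a b, f a = f b → a = b)
    (h : ∀ a : Fin 5, a.val < 3 → f a < 3) (a : Fin 5) (ha : 3 ≤ a.val) : 3 ≤ f a := by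
  by_contra hcon
  have h0 := h 0 (by decide)
  have h1 := h 1 (by decide)
  have h2 := h 2 (by decide)
  have e0 : f a ≠ f 0 := fun h => by
    have := hinj _ _ h; subst this; simp at ha
  have e1 : f a ≠ f 1 := fun h => by
    have := hinj _ _ h; subst this; simp at ha
  have e2 : f a ≠ f 2 := fun h => by
    have := hinj _ _ h; subst this; simp at ha
  have f01 : f 0 ≠ f 1 := fun h => by
    have := hinj _ _ h; simp at this
  have f02 : f 0 ≠ f 2 := fun h => by
    have := hinj _ _ h; simp at this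
  have f12 : f 1 ≠ f 2 := fun h => by
    have := hinj _ _ h; simp at this
  clear hinj h
  omega

theorem structure_of_psi (V : ℕ → Pt → Prop) (x : Pt) (hx : Sat le V x psi) :
    x = root ∧ ∃ (m : ℕ) (c : Fin 5 → ℕ),
      (∀ a, a.val < 3 → c a < 3) ∧ (∀ a b, c a = c b → a = b) ∧
      (∀ a, a.val < 3 → ∀ z, V a.val z ↔ z = fpt (c a) m) ∧
      (∃ k ≤ m, ∃ a : Fin 5, 3 ≤ a.val ∧ V a.val (S k)) ∧
      (∃ k ≤ m, ∃ a : Fin 5, 3 ≤ a.val ∧ V a.val (T k)) ∧
      (∀ a : Fin 5, 3 ≤ a.val → ∀ z, V a.val z → (∃ k, z = S k) ∨ (∃ k, z = T k)) := by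
  rw [sat_psi] at hx
  obtain ⟨hsee, hind, hp01, hp02, hp12⟩ := hx
  have hw : ∀ a : Fin 5, ∃ v, le x v ∧ V a.val v := fun a => hsee a.val a.isLt
  choose α hα using hw
  have hαi : ∀ i j : Fin 5, i ≠ j → ¬ le (α i) (α j) := by
    intro i j hij hle
    exact hind i.val i.isLt j.val j.isLt (fun h => hij (Fin.ext h.symm)) (α i) (hα i).1 (hα i).2
      (α j) hle (hα j).2
  obtain ⟨hs, m, hm0, hm3, hm4⟩ := antichain_five α hαi
  -- x is the root
  have hxroot : x = root := by
    obtain ⟨i3, h3⟩ := hs 3 (by norm_num)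
    obtain ⟨i4, h4⟩ := hs 4 (by norm_num)
    obtain ⟨k, _, e3⟩ := hm3 i3 h3
    obtain ⟨l, _, e4⟩ := hm4 i4 h4
    have l3 := (hα i3).1
    have l4 := (hα i4).1
    rw [e3] at l3
    rw [e4] at l4
    cases x <;> simp at l3 l4
    rfl
  refine ⟨hxroot, m, fun a => chain (α a), ?_⟩
  have hle : ∀ v, le x v := by intro v; rw [hxroot]; simp
  have hinj : ∀ a b, chain (α a) = chain (α b) → a = b := by
    intro a b hab
    by_contra hne
    rcases chain_comp hab with h | h
    · exact hαi a b hne h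
    · exact hαi b a (Ne.symm hne) h
  -- description of the classes
  have hcls : ∀ a : Fin 5, ∀ z, V a.val z →
      (chain (α a) < 3 → z = fpt (chain (α a)) m) ∧
      (chain (α a) = 3 → ∃ k ≤ m, z = S k) ∧ (chain (α a) = 4 → ∃ k ≤ m, z = T k) := by
    intro a z hz
    let β : Fin 5 → Pt := Function.update α a z
    have hβV : ∀ i, V i.val (β i) := by
      intro i
      by_cases hi : i = a
      · subst hi; simpa [β] using hz
      · simpa [β, hi] using (hα i).2
    have hβi : ∀ i j : Fin 5, i ≠ j → ¬ le (β i) (β j) := by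
      intro i j hij hle'
      exact hind i.val i.isLt j.val j.isLt (fun h => hij (Fin.ext h.symm)) (β i) (hle _) (hβV i)
        (β j) hle' (hβV j)
    obtain ⟨hs', m', hm0', hm3', hm4'⟩ := antichain_five β hβi
    have hβa : β a = z := by simp [β]
    have hβo : ∀ i, i ≠ a → β i = α i := by intro i hi; simp [β, hi]
    have hch : chain z = chain (α a) := by
      obtain ⟨i, hi⟩ := hs' (chain (α a)) (chain_lt _)
      by_cases hia : i = a
      · subst hia; rwa [hβa] at hi
      · rw [hβo i hia] at hi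
        exact absurd (hinj _ _ hi) hia
    have hmm : m' = m := by
      obtain ⟨i0, h0⟩ := hs 0 (by norm_num)
      obtain ⟨i1, h1⟩ := hs 1 (by norm_num)
      by_cases hia : i0 = a
      · have hib : i1 ≠ a := by rintro rfl; rw [← hia, h0] at h1; omega
        have e1 := hm0 i1 (by omega)
        have e2 := hm0' i1 (by rw [hβo i1 hib]; omega)
        rw [hβo i1 hib] at e2
        rw [e1, h1] at e2
        have : chain (fpt 1 m) = 1 := by rw [← h1, ← e1]
        rw [this] at e2
        exact (fpt_inj (by norm_num) (by norm_num) e2).2.symm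
      · have e1 := hm0 i0 (by omega)
        have e2 := hm0' i0 (by rw [hβo i0 hia]; omega)
        rw [hβo i0 hia] at e2
        rw [e1, h0] at e2
        have : chain (fpt 0 m) = 0 := by rw [← h0, ← e1]
        rw [this] at e2
        exact (fpt_inj (by norm_num) (by norm_num) e2).2.symm
    subst hmm
    refine ⟨fun h => ?_, fun h => ?_, fun h => ?_⟩
    · have := hm0' a (by rw [hβa, hch]; exact h)
      rwa [hβa, hch] at this
    · have := hm3' a (by rw [hβa, hch]; exact h)
      rwa [hβa] at this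
    · have := hm4' a (by rw [hβa, hch]; exact h)
      rwa [hβa] at this
  -- values on other F-classes
  have hcov : ∀ v < 3, ∃ i, chain (α i) = v ∧ V i.val (fpt v m) := by
    intro v hv
    obtain ⟨i, hi⟩ := hs v (by omega)
    refine ⟨i, hi, ?_⟩
    have := hm0 i (by omega)
    rw [hi] at this
    rw [← this]; exact (hα i).2
  have hrootsees : ∀ i, Sees V root i := fun i => ⟨α i, by simp, (hα i).2⟩
  have keyS : ∀ a b, ExPair V a b → a ≠ b → chain (α a) = 3 → chain (α b) = 1 := by
    rintro a b ⟨z, ⟨u, hu, hVu⟩, ⟨w, hw, hVw⟩, hno⟩ hab ha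
    obtain ⟨k, hk, rfl⟩ := (hcls a u hVu).2.1 ha
    have hnr : z ≠ root := by
      rintro rfl
      obtain ⟨i, hia, hib⟩ := exists_third a b
      exact hno i hia hib (hrootsees i)
    obtain ⟨k', rfl⟩ : ∃ k', z = S k' := by
      cases z with
      | root => exact absurd rfl hnr
      | top => simp at hu
      | F i k => simp at hu
      | S k' => exact ⟨k', rfl⟩
      | T k' => simp at hu
    have hb3 : chain (α b) ≠ 3 := fun h => hab (hinj a b (by rw [ha, h]))
    have hb4 : chain (α b) ≠ 4 := by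
      intro h
      obtain ⟨l, _, rfl⟩ := (hcls b w hVw).2.2 h
      simp at hw
    have hb5 := chain_lt (α b)
    have hb : chain (α b) < 3 := by omega
    have hwe := (hcls b w hVw).1 hb
    rw [hwe] at hw
    have hno' : ∀ v < 3, v ≠ chain (α b) → ¬ le (S k') (fpt v m) := by
      intro v hv hvb hle'
      obtain ⟨i, hi, hVi⟩ := hcov v hv
      exact hno i (by rintro rfl; omega) (by rintro rfl; omega) ⟨_, hle', hVi⟩
    exact arithS m k' _ hb hw hno'
  have keyT : ∀ a b, ExPair V a b → a ≠ b → chain (α a) = 4 →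
      chain (α b) < 3 ∧ (chain (α b) + m) % 3 = (2 * (m + 1)) % 3 := by
    rintro a b ⟨z, ⟨u, hu, hVu⟩, ⟨w, hw, hVw⟩, hno⟩ hab ha
    obtain ⟨k, hk, rfl⟩ := (hcls a u hVu).2.2 ha
    have hnr : z ≠ root := by
      rintro rfl
      obtain ⟨i, hia, hib⟩ := exists_third a b
      exact hno i hia hib (hrootsees i)
    obtain ⟨k', rfl⟩ : ∃ k', z = T k' := by
      cases z with
      | root => exact absurd rfl hnr
      | top => simp at hu
      | F i k => simp at hu
      | T k' => exact ⟨k', rfl⟩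
      | S k' => simp at hu
    have hb3 : chain (α b) ≠ 4 := fun h => hab (hinj a b (by rw [ha, h]))
    have hb4 : chain (α b) ≠ 3 := by
      intro h
      obtain ⟨l, _, rfl⟩ := (hcls b w hVw).2.1 h
      simp at hw
    have hb5 := chain_lt (α b)
    have hb : chain (α b) < 3 := by omega
    have hwe := (hcls b w hVw).1 hb
    rw [hwe] at hw
    have hno' : ∀ v < 3, v ≠ chain (α b) → ¬ le (T k') (fpt v m) := by
      intro v hv hvb hle'
      obtain ⟨i, hi, hVi⟩ := hcov v hv
      exact hno i (by rintro rfl; omega) (by rintro rfl; omega) ⟨_, hle', hVi⟩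
    exact ⟨hb, arithT m k' _ hb hw hno'⟩
  have mkPair : ∀ a b c : Fin 5, a.val < 3 → b.val < 3 → c.val < 3 → a ≠ b → a ≠ c → b ≠ c →
      (∃ v, le x v ∧ Sat le V v (pairF a.val b.val c.val)) → ExPair V a b := by
    rintro a b c ha hb hc hab hac hbc ⟨z, _, hz⟩
    simp only [pairF, sat_conj, sat_dia, sat_neg, sat_var] at hz
    obtain ⟨⟨h1, h2⟩, h3, h4, h5⟩ := hz
    refine ⟨z, h1, h2, ?_⟩
    intro i hia hib hS
    have hi : i = c ∨ i.val = 3 ∨ i.val = 4 := by
      by_contra hcon
      push Not at hcon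
      have := i.isLt
      have e1 : i.val ≠ a.val := fun h => hia (Fin.ext h)
      have e2 : i.val ≠ b.val := fun h => hib (Fin.ext h)
      have e3 : i.val ≠ c.val := fun h => hcon.1 (Fin.ext h)
      have e4 : a.val ≠ b.val := fun h => hab (Fin.ext h)
      have e5 : a.val ≠ c.val := fun h => hac (Fin.ext h)
      have e6 : b.val ≠ c.val := fun h => hbc (Fin.ext h)
      omega
    obtain ⟨u, hu1, hu2⟩ := hS
    rcases hi with rfl | hi | hi
    · exact h3 ⟨u, hu1, hu2⟩
    · rw [hi] at hu2; exact h4 ⟨u, hu1, hu2⟩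
    · rw [hi] at hu2; exact h5 ⟨u, hu1, hu2⟩
  have P01 : ExPair V 0 1 := mkPair 0 1 2 (by decide) (by decide) (by decide) (by decide)
    (by decide) (by decide) hp01
  have P02 : ExPair V 0 2 := mkPair 0 2 1 (by decide) (by decide) (by decide) (by decide)
    (by decide) (by decide) hp02
  have P12 : ExPair V 1 2 := mkPair 1 2 0 (by decide) (by decide) (by decide) (by decide)
    (by decide) (by decide) hp12
  have hlt3 : ∀ a b c : Fin 5, a ≠ b → a ≠ c → b ≠ c → ExPair V a b → ExPair V a c →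
      chain (α a) < 3 := by
    intro a b c hab hac hbc h1 h2
    have h5 := chain_lt (α a)
    by_contra hcon
    have : chain (α a) = 3 ∨ chain (α a) = 4 := by omega
    rcases this with h | h
    · exact hbc (hinj _ _ (by rw [keyS a b h1 hab h, keyS a c h2 hac h]))
    · obtain ⟨u1, u2⟩ := keyT a b h1 hab h
      obtain ⟨w1, w2⟩ := keyT a c h2 hac h
      exact hbc (hinj _ _ (by omega))
  have hc0 : chain (α 0) < 3 := hlt3 0 1 2 (by decide) (by decide) (by decide) P01 P02
  have hc1 : chain (α 1) < 3 := hlt3 1 0 2 (by decide) (by decide) (by decide) P01.symm P12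
  have hc2 : chain (α 2) < 3 := hlt3 2 0 1 (by decide) (by decide) (by decide) P02.symm P12.symm
  have hc : ∀ a : Fin 5, a.val < 3 → chain (α a) < 3 := by
    intro a ha
    have : a = 0 ∨ a = 1 ∨ a = 2 := by
      revert a; decide
    rcases this with rfl | rfl | rfl
    · exact hc0
    · exact hc1
    · exact hc2
  have hc' : ∀ a : Fin 5, 3 ≤ a.val → 3 ≤ chain (α a) :=
    arith3 (fun a => chain (α a)) hinj hc
  refine ⟨hc, hinj, ?_, ?_, ?_, ?_⟩
  · intro a ha z
    constructor
    · intro hz; exact (hcls a z hz).1 (hc a ha)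
    · rintro rfl
      have := hm0 a (hc a ha)
      rw [← this]; exact (hα a).2
  · obtain ⟨i, hi⟩ := hs 3 (by norm_num)
    obtain ⟨k, hk, e⟩ := hm3 i hi
    refine ⟨k, hk, i, ?_, ?_⟩
    · by_contra h; have := hc i (by omega); omega
    · rw [← e]; exact (hα i).2
  · obtain ⟨i, hi⟩ := hs 4 (by norm_num)
    obtain ⟨k, hk, e⟩ := hm4 i hi
    refine ⟨k, hk, i, ?_, ?_⟩
    · by_contra h; have := hc i (by omega); omega
    · rw [← e]; exact (hα i).2
  · intro a ha z hz
    have h1 := hc' a ha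
    have h2 := chain_lt (α a)
    have : chain (α a) = 3 ∨ chain (α a) = 4 := by omega
    rcases this with h | h
    · obtain ⟨k, _, e⟩ := (hcls a z hz).2.1 h
      exact Or.inl ⟨k, e⟩
    · obtain ⟨k, _, e⟩ := (hcls a z hz).2.2 h
      exact Or.inr ⟨k, e⟩

/-- The extension of `delta l j` under a valuation whose first three classes are the three
points of level `m`. -/
theorem sat_delta (V : ℕ → Pt → Prop) (m : ℕ) (c : Fin 5 → ℕ)
    (hc : ∀ a, a.val < 3 → c a < 3) (hinj : ∀ a b, c a = c b → a = b)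
    (hV : ∀ a, a.val < 3 → ∀ z, V a.val z ↔ z = fpt (c a) m)
    (hS : ∃ k ≤ m, ∃ a : Fin 5, 3 ≤ a.val ∧ V a.val (S k))
    (hT : ∃ k ≤ m, ∃ a : Fin 5, 3 ≤ a.val ∧ V a.val (T k))
    (hST : ∀ a : Fin 5, 3 ≤ a.val → ∀ z, V a.val z → (∃ k, z = S k) ∨ (∃ k, z = T k)) :
    ∀ (l : ℕ) (a : Fin 5), a.val < 3 → ∀ z, Sat le V z (delta l a.val) ↔
      z = F ⟨(c a + m) % 3, Nat.mod_lt _ (by norm_num)⟩ (m + l) := by
  intro l
  induction l with
  | zero =>
    intro a ha z
    simp only [delta, sat_var]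
    rw [hV a ha z]
    simp [fpt]
  | succ l ih =>
    intro a ha z
    obtain ⟨b, hb, hbv⟩ : ∃ b : Fin 5, b.val < 3 ∧ b.val = (a.val + 1) % 3 :=
      ⟨⟨(a.val + 1) % 3, by omega⟩, by simp only; omega, rfl⟩
    obtain ⟨d, hd, hdv⟩ : ∃ d : Fin 5, d.val < 3 ∧ d.val = (a.val + 2) % 3 :=
      ⟨⟨(a.val + 2) % 3, by omega⟩, by simp only; omega, rfl⟩
    have hab : c a ≠ c b := fun h => by
      have := congrArg Fin.val (hinj _ _ h); omega
    have had : c a ≠ c d := fun h => by
      have := congrArg Fin.val (hinj _ _ h); omega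
    have hbd : c b ≠ c d := fun h => by
      have := congrArg Fin.val (hinj _ _ h); omega
    have ca := hc a ha
    have cb := hc b hb
    have cd := hc d hd
    simp only [delta, sat_conj, sat_neg, sat_dia, sat_var]
    rw [← hbv, ← hdv]
    have see : ∀ e : Fin 5, e.val < 3 → ((∃ v, le z v ∧ Sat le V v (delta l e.val)) ↔
        le z (F ⟨(c e + m) % 3, Nat.mod_lt _ (by norm_num)⟩ (m + l))) := by
      intro e he
      constructor
      · rintro ⟨v, hv, hvs⟩
        rw [ih e he] at hvs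
        rwa [hvs] at hv
      · intro h
        exact ⟨_, h, (ih e he _).2 rfl⟩
    rw [see a ha, see b hb, see d hd]
    have h34 : ∀ u, (V 3 u ∨ V 4 u) → (∃ k, u = S k) ∨ (∃ k, u = T k) := by
      rintro u (h | h)
      · exact hST 3 (by decide) u h
      · exact hST 4 (by decide) u h
    have hSee : ∀ u, (∃ a : Fin 5, 3 ≤ a.val ∧ V a.val u) → V 3 u ∨ V 4 u := by
      rintro u ⟨a, ha, h⟩
      have : a.val = 3 ∨ a.val = 4 := by omega
      rcases this with h' | h' <;> rw [h'] at h
      · exact Or.inl h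
      · exact Or.inr h
    constructor
    · rintro ⟨h1, ⟨h2, h3⟩, h4, h5⟩
      have hno : ∀ u, (V 3 u ∨ V 4 u) → ¬ le z u := by
        rintro u (h | h) hle
        · exact h4 ⟨u, hle, h⟩
        · exact h5 ⟨u, hle, h⟩
      obtain ⟨kS, hkS, hVS⟩ := hS
      obtain ⟨kT, hkT, hVT⟩ := hT
      have nS := hno _ (hSee _ hVS)
      have nT := hno _ (hSee _ hVT)
      cases z with
      | root => simp at nS
      | top => simp at h2
      | S k =>
        exfalso
        simp only [le_S_S] at nS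
        simp only [le_S_F] at h2
        omega
      | T k =>
        exfalso
        simp only [le_T_T] at nT
        simp only [le_T_F] at h2
        omega
      | F i k =>
        simp only [le_F_F] at h1 h2 h3
        have hi := i.isLt
        have hk : k = m + (l + 1) := by
          clear hST hV ih see
          omega
        subst hk
        congr 1
        apply Fin.ext
        simp only
        omega
    · rintro rfl
      refine ⟨?_, ⟨?_, ?_⟩, ?_, ?_⟩
      · simp only [le_F_F]; omega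
      · simp only [le_F_F]; omega
      · simp only [le_F_F]; omega
      · rintro ⟨u, hu, hVu⟩
        rcases h34 u (Or.inl hVu) with ⟨k, rfl⟩ | ⟨k, rfl⟩ <;> simp at hu
      · rintro ⟨u, hu, hVu⟩
        rcases h34 u (Or.inr hVu) with ⟨k, rfl⟩ | ⟨k, rfl⟩ <;> simp at hu

theorem psi_dia_delta (l : ℕ) : imp psi (dia (delta l 0)) ∈ Log le := by
  intro V x
  rw [sat_imp]
  intro hx
  obtain ⟨rfl, m, c, hc, hinj, hV, hS, hT, hST⟩ := structure_of_psi V x hx
  rw [sat_dia]
  exact ⟨_, by simp, (sat_delta V m c hc hinj hV hS hT hST l 0 (by decide) _).2 rfl⟩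

theorem psi_delta_ne (l l' : ℕ) (h : l ≠ l') :
    imp psi (box (neg (conj (delta l 0) (delta l' 0)))) ∈ Log le := by
  intro V x
  rw [sat_imp]
  intro hx
  obtain ⟨rfl, m, c, hc, hinj, hV, hS, hT, hST⟩ := structure_of_psi V x hx
  simp only [sat_box, sat_neg, sat_conj]
  rintro v _ ⟨h1, h2⟩
  have e1 := (sat_delta V m c hc hinj hV hS hT hST l 0 (by decide) v).1 h1
  have e2 := (sat_delta V m c hc hinj hV hS hT hST l' 0 (by decide) v).1 h2
  rw [e1] at e2
  simp only [F.injEq] at e2
  omega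

/-- The standard valuation. -/
def V₀ (n : ℕ) (z : Pt) : Prop :=
  (n = 0 ∧ z = F 0 0) ∨ (n = 1 ∧ z = F 1 0) ∨ (n = 2 ∧ z = F 2 0) ∨ (n = 3 ∧ z = S 0) ∨
    (n = 4 ∧ z = T 0)

theorem psi_root : Sat le V₀ root psi := by
  rw [sat_psi]
  refine ⟨?_, ?_, ?_, ?_, ?_⟩
  · intro a ha
    have : a = 0 ∨ a = 1 ∨ a = 2 ∨ a = 3 ∨ a = 4 := by omega
    rcases this with rfl | rfl | rfl | rfl | rfl
    · exact ⟨F 0 0, by simp, by simp [V₀]⟩
    · exact ⟨F 1 0, by simp, by simp [V₀]⟩
    · exact ⟨F 2 0, by simp, by simp [V₀]⟩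
    · exact ⟨S 0, by simp, by simp [V₀]⟩
    · exact ⟨T 0, by simp, by simp [V₀]⟩
  · intro a ha b hb hab v _ hVv u hu hVu
    rcases hVv with ⟨h1, rfl⟩ | ⟨h1, rfl⟩ | ⟨h1, rfl⟩ | ⟨h1, rfl⟩ | ⟨h1, rfl⟩ <;>
    rcases hVu with ⟨h2, rfl⟩ | ⟨h2, rfl⟩ | ⟨h2, rfl⟩ | ⟨h2, rfl⟩ | ⟨h2, rfl⟩ <;>
    simp at hu <;> omega
  · refine ⟨F 2 1, by simp, ?_⟩
    simp only [pairF, sat_conj, sat_dia, sat_neg, sat_var]
    refine ⟨⟨⟨F 0 0, by simp, by simp [V₀]⟩, ⟨F 1 0, by simp, by simp [V₀]⟩⟩, ?_, ?_, ?_⟩ <;>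
    · rintro ⟨u, hu, hVu⟩
      rcases hVu with ⟨h2, rfl⟩ | ⟨h2, rfl⟩ | ⟨h2, rfl⟩ | ⟨h2, rfl⟩ | ⟨h2, rfl⟩ <;>
      simp at hu h2
  · refine ⟨F 1 1, by simp, ?_⟩
    simp only [pairF, sat_conj, sat_dia, sat_neg, sat_var]
    refine ⟨⟨⟨F 0 0, by simp, by simp [V₀]⟩, ⟨F 2 0, by simp, by simp [V₀]⟩⟩, ?_, ?_, ?_⟩ <;>
    · rintro ⟨u, hu, hVu⟩
      rcases hVu with ⟨h2, rfl⟩ | ⟨h2, rfl⟩ | ⟨h2, rfl⟩ | ⟨h2, rfl⟩ | ⟨h2, rfl⟩ <;>
      simp at hu h2
  · refine ⟨F 0 1, by simp, ?_⟩
    simp only [pairF, sat_conj, sat_dia, sat_neg, sat_var]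
    refine ⟨⟨⟨F 1 0, by simp, by simp [V₀]⟩, ⟨F 2 0, by simp, by simp [V₀]⟩⟩, ?_, ?_, ?_⟩ <;>
    · rintro ⟨u, hu, hVu⟩
      rcases hVu with ⟨h2, rfl⟩ | ⟨h2, rfl⟩ | ⟨h2, rfl⟩ | ⟨h2, rfl⟩ | ⟨h2, rfl⟩ <;>
      simp at hu h2

theorem not_fmp : ¬ HasFMP (Log le) := by
  intro hfmp
  have hψ : neg psi ∉ Log le := by
    intro h
    have := h V₀ root
    rw [sat_neg] at this
    exact this psi_root
  obtain ⟨W, hW, R, hL, hR⟩ := hfmp (neg psi) hψ
  have : ∃ V w, Sat R V w psi := by
    by_contra hcon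
    push Not at hcon
    exact hR (fun V w => by rw [sat_neg]; exact hcon V w)
  obtain ⟨V, w, hw⟩ := this
  have h1 : ∀ l, ∃ v, R w v ∧ Sat R V v (delta l 0) := by
    intro l
    have := hL (psi_dia_delta l) V w
    rw [sat_imp, sat_dia] at this
    exact this hw
  choose u hu using h1
  have hinj : Function.Injective u := by
    intro l l' hll
    by_contra hne
    have := hL (psi_delta_ne l l' hne) V w
    rw [sat_imp] at this
    have := this hw
    simp only [sat_box, sat_neg, sat_conj] at this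
    exact this (u l) (hu l).1 ⟨(hu l).2, hll ▸ (hu l').2⟩
  exact not_injective_infinite_finite u hinj

theorem le_refl' (x : Pt) : le x x := by
  cases x <;> simp

theorem le_trans' (x y z : Pt) (h1 : le x y) (h2 : le y z) : le x z := by
  cases x <;> cases y <;> cases z <;> simp at h1 h2 ⊢ <;> omega

theorem le_antisymm' (x y : Pt) (h1 : le x y) (h2 : le y x) : x = y := by
  cases x <;> cases y <;> simp at h1 h2 ⊢ <;>
    first
      | omega
      | (refine ⟨Fin.ext ?_, ?_⟩ <;> omega)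

def encodePt : Pt → ℕ × ℕ × ℕ
  | root => (0, 0, 0)
  | top => (1, 0, 0)
  | F i k => (2, i.val, k)
  | S k => (3, 0, k)
  | T k => (4, 0, k)

theorem encodePt_inj : Function.Injective encodePt := by
  intro x y h
  cases x <;> cases y <;> simp [encodePt] at h ⊢
  · exact ⟨Fin.ext h.1, h.2⟩
  · exact h
  · exact h

/-- **Result.** There is a countable partially ordered Kripke frame `(W, R)` whose logic is a
normal modal logic that extends `Log(ω^n)` for every `n ≥ 2` and lacks the finite model property.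
In particular, for every finite `n ≥ 2`, some (even Kripke complete) normal extension of
`Log(ω^n)` lacks the finite model property. -/
theorem result : ∃ (W : Type) (R : W → W → Prop), Countable W ∧ (∀ x, R x x) ∧
    (∀ x y z, R x y → R y z → R x z) ∧ (∀ x y, R x y → R y x → x = y) ∧
    IsNormal (Log R) ∧ (∀ n : ℕ, 2 ≤ n → Log (powLE n) ⊆ Log R) ∧ ¬ HasFMP (Log R) :=
  ⟨Pt, le, encodePt_inj.countable, le_refl', le_trans', le_antisymm', log_isNormal le,
    fun n hn => (log_pow_subset n hn).trans log_le2_subset, not_fmp⟩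

end Pool.Agent.Results.MP_1909e4_lc.NoFMP
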